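import Mathlib

/-!
# Non-Poissonian local statistics of `n² α` mod 1 for a badly approximable `α`

The number `α = ∑_{j ≥ 1} 2^(-2^j)` is badly approximable (of type `2`), and infinitely many of its
good rational approximations have a perfect square as denominator.  Because of this the `k`-level
correlation of `{n² α}`, `n ≤ N`, does not converge to its Poissonian value, for every `k ≥ 4`.
-/

namespace Pool.Agent.Results.MP_0a44cb_nt.SquareDenominators

open Filter Topology MeasureTheory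

/-- `α` is of type `ϰ`: there is `C > 0` with `|α - a/q| ≥ C q^(-ϰ)` for all coprime integers
`a` and `q ≥ 1`. -/
def IsOfType (α ϰ : ℝ) : Prop :=
  ∃ C : ℝ, 0 < C ∧ ∀ (a : ℤ) (q : ℕ), 1 ≤ q → Int.gcd a q = 1 →
    C * (q : ℝ) ^ (-ϰ) ≤ |α - a / q|

/-- The sequence `x_n = {n² α}`. -/
noncomputable def x (α : ℝ) (n : ℕ) : ℝ := Int.fract ((n : ℝ) ^ 2 * α)

/-- The `k`-level correlation sum `R_k(f, N)` of the sequence `{n² α}`, `1 ≤ n ≤ N`, where
`k = K + 1` and `f : ℝ^(k-1) → ℝ`: the outer sum runs over the `k`-tuples of distinct integers in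
`[1, N]`, the inner one over all integer vectors `m` of length `k - 1`. -/
noncomputable def R (α : ℝ) {K : ℕ} (f : (Fin K → ℝ) → ℝ) (N : ℕ) : ℝ :=
  (1 / (N : ℝ)) *
    ∑ n ∈ (Fintype.piFinset (fun _ : Fin (K + 1) => Finset.Icc 1 N)).filter
        (fun n => Function.Injective n),
      ∑' m : Fin K → ℤ,
        f (fun i => (N : ℝ) * (x α (n i.castSucc) - x α (n i.succ) + m i))

/-! ### The number `α` and its approximations -/

/-- denominators `4, 16, 256, …` -/
def Q (k : ℕ) : ℕ := 2 ^ 2 ^ (k + 1)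

/-- numerators of the partial sums -/
def P : ℕ → ℕ
  | 0 => 1
  | (k + 1) => P k * Q k + 1

lemma Q_succ (k : ℕ) : Q (k + 1) = Q k ^ 2 := by
  unfold Q
  rw [← pow_mul]
  congr 1

lemma Q_ge (k : ℕ) : 4 ≤ Q k := by
  induction k with
  | zero => simp [Q]
  | succ k ih => rw [Q_succ]; nlinarith

lemma Q_pos (k : ℕ) : 0 < Q k := lt_of_lt_of_le (by norm_num) (Q_ge k)

lemma Q_even (k : ℕ) : ∃ m : ℕ, Q k = 2 * m := by
  refine ⟨2 ^ (2 ^ (k + 1) - 1), ?_⟩
  unfold Q
  rw [← pow_succ']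
  congr 1
  have : 1 ≤ 2 ^ (k + 1) := Nat.one_le_two_pow
  omega

lemma P_odd (k : ℕ) : Odd (P k) := by
  cases k with
  | zero => exact odd_one
  | succ k =>
    obtain ⟨m, hm⟩ := Q_even k
    refine ⟨P k * m, ?_⟩
    simp only [P, hm]
    ring

lemma coprime_PQ (k : ℕ) : Nat.Coprime (P k) (Q k) := by
  unfold Q
  exact Nat.Coprime.pow_right _ ((Nat.coprime_two_right).2 (P_odd k))

/-- The inequality used in the inductive step. -/
lemma step_ineq (q X d Y : ℝ) (hq : 4 ≤ q) (hX : 0 ≤ X) (hY : 0 ≤ Y)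
    (h1 : q * d - X ≤ Y) (h2 : Y ≤ q * d + X)
    (ih : q ^ 3 + (40 * q + 64) * (X ^ 2 + d ^ 2) ≤ 32 * q ^ 2 * (X * d)) :
    (q ^ 2) ^ 3 + (40 * q ^ 2 + 64) * (X ^ 2 + Y ^ 2) ≤ 32 * (q ^ 2) ^ 2 * (X * Y) := by
  have hq0 : 0 ≤ q := by linarith
  have e1 : 32 * q ^ 4 * (X * (q * d - X)) ≤ 32 * q ^ 4 * (X * Y) := by
    have : X * (q * d - X) ≤ X * Y := mul_le_mul_of_nonneg_left h1 hX
    exact mul_le_mul_of_nonneg_left this (by positivity)
  have e2 : q ^ 3 * (q ^ 3 + (40 * q + 64) * (X ^ 2 + d ^ 2)) ≤ q ^ 3 * (32 * q ^ 2 * (X * d)) :=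
    mul_le_mul_of_nonneg_left ih (by positivity)
  have e3 : Y ^ 2 ≤ (q ^ 2 + q) * d ^ 2 + (q + 1) * X ^ 2 := by
    have h3 : Y ^ 2 ≤ (q * d + X) ^ 2 := pow_le_pow_left₀ hY h2 2
    have h4 : 0 ≤ q * (d - X) ^ 2 := by positivity
    nlinarith
  have e4 : (40 * q ^ 2 + 64) * Y ^ 2 ≤
      (40 * q ^ 2 + 64) * ((q ^ 2 + q) * d ^ 2 + (q + 1) * X ^ 2) :=
    mul_le_mul_of_nonneg_left e3 (by positivity)
  have c1 : (40 * q ^ 2 + 64) * (q + 2) ≤ 8 * q ^ 4 + 64 * q ^ 3 := by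
    nlinarith [mul_nonneg hq0 hq0, mul_nonneg (mul_nonneg hq0 hq0) hq0,
      mul_nonneg (sub_nonneg.2 hq) (mul_nonneg (mul_nonneg hq0 hq0) hq0),
      mul_nonneg (sub_nonneg.2 hq) (mul_nonneg hq0 hq0), mul_nonneg (sub_nonneg.2 hq) hq0]
  have c2 : (40 * q ^ 2 + 64) * (q ^ 2 + q) ≤ 40 * q ^ 4 + 64 * q ^ 3 := by
    nlinarith [mul_nonneg hq0 hq0, mul_nonneg (mul_nonneg hq0 hq0) hq0,
      mul_nonneg (sub_nonneg.2 hq) (mul_nonneg hq0 hq0), mul_nonneg (sub_nonneg.2 hq) hq0]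
  have c1' := mul_le_mul_of_nonneg_right c1 (sq_nonneg X)
  have c2' := mul_le_mul_of_nonneg_right c2 (sq_nonneg d)
  nlinarith

/-- The second inequality used in the inductive step. -/
lemma step_ineq' (q X Y : ℝ) (hq : 4 ≤ q) (hX : q ≤ 2 * X) (hY : q ≤ 2 * Y)
    (hX' : 2 * X ≤ q ^ 2) (hY' : 2 * Y ≤ q ^ 2) :
    (q ^ 2) ^ 3 + (40 * q ^ 2 + 64) * (X ^ 2 + Y ^ 2) ≤ 32 * (q ^ 2) ^ 2 * (X * Y) := by
  have hq0 : 0 ≤ q := by linarith
  have hX0 : 0 ≤ X := by linarith
  have hY0 : 0 ≤ Y := by linarith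
  have a1 : q ^ 2 ≤ 4 * (X * Y) := by nlinarith
  have a2 : q * (X + Y) ≤ 4 * (X * Y) := by nlinarith
  have a3 : 2 * (X ^ 2 + Y ^ 2) ≤ q ^ 2 * (X + Y) := by nlinarith
  have b1 : q ^ 4 * q ^ 2 ≤ q ^ 4 * (4 * (X * Y)) :=
    mul_le_mul_of_nonneg_left a1 (by positivity)
  have b2 : 7 * q ^ 4 * (q * (X + Y)) ≤ 7 * q ^ 4 * (4 * (X * Y)) :=
    mul_le_mul_of_nonneg_left a2 (by positivity)
  have b3 : (20 * q ^ 2 + 32) * (2 * (X ^ 2 + Y ^ 2)) ≤ (20 * q ^ 2 + 32) * (q ^ 2 * (X + Y)) :=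
    mul_le_mul_of_nonneg_left a3 (by positivity)
  have b4 : (20 * q ^ 2 + 32) * q ^ 2 ≤ 7 * q ^ 5 := by
    have : 20 * q ^ 2 + 32 ≤ 7 * q ^ 3 := by
      nlinarith [mul_nonneg (sub_nonneg.2 hq) (mul_nonneg hq0 hq0), mul_nonneg (sub_nonneg.2 hq) hq0]
    nlinarith [mul_le_mul_of_nonneg_right this (sq_nonneg q)]
  have b5 := mul_le_mul_of_nonneg_right b4 (add_nonneg hX0 hY0)
  nlinarith

/-- The key inductive inequality: it says that `P k / Q k` is badly approximable, uniformly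
in `k`. -/
lemma key (k : ℕ) : ∀ b a D : ℤ, D = b * P k - a * Q k → b ≠ 0 → D ≠ 0 →
    2 * |b| ≤ Q k → 2 * |D| ≤ Q k →
    (Q k : ℝ) ^ 3 + (40 * (Q k : ℝ) + 64) * (|(b : ℝ)| ^ 2 + |(D : ℝ)| ^ 2) ≤
      32 * (Q k : ℝ) ^ 2 * (|(b : ℝ)| * |(D : ℝ)|) := by
  induction k with
  | zero =>
    intro b a D hD hb hD0 h1 h2
    have hQ : (Q 0 : ℤ) = 4 := by simp [Q]
    have hP : (P 0 : ℤ) = 1 := by simp [P]
    rw [hQ] at h1 h2 hD
    rw [hP] at hD
    have hb1 : |b| ≤ 2 := by omega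
    have hD1 : |D| ≤ 2 := by omega
    obtain ⟨hb2, hb3⟩ := abs_le.1 hb1
    obtain ⟨hD2, hD3⟩ := abs_le.1 hD1
    have hQr : (Q 0 : ℝ) = 4 := by norm_num [Q]
    rw [hQr]
    have hcases : (b = 1 ∧ D = 1) ∨ (b = -1 ∧ D = -1) ∨ (b = 2 ∧ D = 2) ∨ (b = 2 ∧ D = -2) ∨
        (b = -2 ∧ D = 2) ∨ (b = -2 ∧ D = -2) := by
      omega
    rcases hcases with ⟨rfl, rfl⟩ | ⟨rfl, rfl⟩ | ⟨rfl, rfl⟩ | ⟨rfl, rfl⟩ | ⟨rfl, rfl⟩ | ⟨rfl, rfl⟩ <;>
      norm_num
  | succ k ih =>
    intro b a E hE hb hE0 h1 h2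
    set q : ℕ := Q k with hq
    set p : ℕ := P k with hp
    have hq4 : 4 ≤ q := Q_ge k
    have hQs : (Q (k + 1) : ℤ) = (q : ℤ) ^ 2 := by rw [Q_succ]; push_cast; rfl
    have hQsr : (Q (k + 1) : ℝ) = (q : ℝ) ^ 2 := by rw [Q_succ]; push_cast; rfl
    have hPs : (P (k + 1) : ℤ) = (p : ℤ) * q + 1 := by simp [P, hp, hq]
    rw [hQs] at h1 h2 hE
    rw [hPs] at hE
    rw [hQsr]
    set D : ℤ := b * p - a * q with hD
    have hED : E = q * D + b := by rw [hE, hD]; ring
    have hqpos : (0 : ℤ) < q := by exact_mod_cast (by omega : 0 < q)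
    have hq4' : (4 : ℤ) ≤ q := by exact_mod_cast hq4
    obtain ⟨m, hm⟩ := Q_even k
    have hm' : (q : ℤ) = 2 * m := by rw [hq, hm]; push_cast; ring
    have hcop : IsCoprime (q : ℤ) (p : ℤ) := by
      rw [Nat.isCoprime_iff_coprime]
      exact (coprime_PQ k).symm
    -- a general bound for `D`
    have hDbound : |E| + |b| ≤ (q : ℤ) * m + m → 2 * |D| ≤ q := by
      intro h
      have h3 : (q : ℤ) * |D| ≤ q * m + m := by
        have : |(q : ℤ) * D| ≤ |E| + |b| := by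
          have : (q : ℤ) * D = E - b := by rw [hED]; ring
          rw [this]
          exact abs_sub E b
        rw [abs_mul, abs_of_pos hqpos] at this
        linarith
      have h4 : |D| ≤ m := by
        by_contra hcon
        push Not at hcon
        have h5 : (m : ℤ) + 1 ≤ |D| := hcon
        have h6 : (q : ℤ) * (m + 1) ≤ q * |D| := mul_le_mul_of_nonneg_left h5 hqpos.le
        have h7 : (m : ℤ) < q := by omega
        nlinarith
      omega
    have hqr : (4 : ℝ) ≤ q := by exact_mod_cast hq4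
    have hqr0 : (0 : ℝ) < q := by linarith
    by_cases hbq : 2 * |b| ≤ q
    · -- small `b`
      have hD0 : D ≠ 0 := by
        intro h0
        have h3 : (q : ℤ) ∣ b * p := ⟨a, by rw [hD] at h0; linarith⟩
        have h4 : (q : ℤ) ∣ b := hcop.dvd_of_dvd_mul_right h3
        have h5 : (q : ℤ) ≤ |b| := Int.le_of_dvd (abs_pos.2 hb) ((dvd_abs _ _).2 h4)
        omega
      have hD2 : 2 * |D| ≤ q := by
        apply hDbound
        nlinarith
      have hih := ih b a D hD hb hD0 hbq hD2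
      have hYeq : (E : ℝ) = q * D + b := by exact_mod_cast hED
      have := step_ineq (q : ℝ) |(b : ℝ)| |(D : ℝ)| |(E : ℝ)| hqr (abs_nonneg _) (abs_nonneg _) (by
          rw [hYeq]
          have h5 := abs_sub_abs_le_abs_sub ((q : ℝ) * D) (-(b : ℝ))
          rw [abs_neg, abs_mul, abs_of_pos hqr0, sub_neg_eq_add] at h5
          exact h5) (by
          rw [hYeq]
          have h5 := abs_add_le ((q : ℝ) * D) (b : ℝ)
          rw [abs_mul, abs_of_pos hqr0] at h5
          exact h5) hih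
      exact this
    · push Not at hbq
      by_cases hEq : 2 * |E| ≤ q
      · -- large `b`, small `E`
        have hD0 : D ≠ 0 := by
          intro h0
          rw [h0, mul_zero, zero_add] at hED
          rw [hED] at hEq
          omega
        have hD2 : 2 * |D| ≤ q := by
          apply hDbound
          nlinarith
        have hDE : D = E * p - (D * p + a) * q := by
          rw [hED, hD]; ring
        have hih := ih E (D * p + a) D hDE hE0 hD0 hEq hD2
        have hYeq : (b : ℝ) = -(q * D - E) := by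
          have : b = -(q * D - E) := by rw [hED]; ring
          exact_mod_cast this
        have := step_ineq (q : ℝ) |(E : ℝ)| |(D : ℝ)| |(b : ℝ)| hqr (abs_nonneg _) (abs_nonneg _) (by
            rw [hYeq, abs_neg]
            have h5 := abs_sub_abs_le_abs_sub ((q : ℝ) * D) (E : ℝ)
            rw [abs_mul, abs_of_pos hqr0] at h5
            exact h5) (by
            rw [hYeq, abs_neg]
            have h5 := abs_sub ((q : ℝ) * D) (E : ℝ)
            rw [abs_mul, abs_of_pos hqr0] at h5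
            exact h5) hih
        rw [add_comm (|(b : ℝ)| ^ 2), mul_comm |(b : ℝ)|]
        exact this
      · push Not at hEq
        have c1 : (q : ℝ) ≤ 2 * |(b : ℝ)| := by
          have : (q : ℤ) ≤ 2 * |b| := hbq.le
          exact_mod_cast this
        have c2 : (q : ℝ) ≤ 2 * |(E : ℝ)| := by
          have : (q : ℤ) ≤ 2 * |E| := hEq.le
          exact_mod_cast this
        have c3 : 2 * |(b : ℝ)| ≤ (q : ℝ) ^ 2 := by exact_mod_cast h1
        have c4 : 2 * |(E : ℝ)| ≤ (q : ℝ) ^ 2 := by exact_mod_cast h2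
        exact step_ineq' (q : ℝ) _ _ hqr c1 c2 c3 c4

/-- partial sums of the series defining `α` -/
noncomputable def r (k : ℕ) : ℝ := (P k : ℝ) / Q k

lemma r_succ (k : ℕ) : r (k + 1) = r k + 1 / Q (k + 1) := by
  have h : (0 : ℝ) < Q k := by exact_mod_cast Q_pos k
  unfold r
  rw [Q_succ]
  simp only [P]
  push_cast
  field_simp

lemma r_mono : Monotone r := by
  apply monotone_nat_of_le_succ
  intro k
  rw [r_succ]
  have : (0 : ℝ) ≤ 1 / Q (k + 1) := by positivity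
  linarith

lemma r_anti : Antitone (fun k => r k + 2 / Q (k + 1)) := by
  apply antitone_nat_of_succ_le
  intro k
  rw [r_succ, Q_succ (k + 1)]
  have h : (4 : ℝ) ≤ Q (k + 1) := by exact_mod_cast Q_ge (k + 1)
  have h0 : (0 : ℝ) < Q (k + 1) := by linarith
  push_cast
  have : (2 : ℝ) / (Q (k + 1) : ℝ) ^ 2 ≤ 1 / Q (k + 1) := by
    rw [div_le_div_iff₀ (by positivity) h0]
    nlinarith
  have h2 : (2 : ℝ) / Q (k + 1) = 1 / Q (k + 1) + 1 / Q (k + 1) := by ring
  linarith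

lemma r_le (k l : ℕ) : r k ≤ r l + 2 / Q (l + 1) := by
  rcases le_total k l with h | h
  · have := r_mono h
    have h2 : (0 : ℝ) ≤ 2 / Q (l + 1) := by positivity
    linarith
  · have := r_anti h
    have h2 : (0 : ℝ) ≤ 2 / Q (k + 1) := by positivity
    simp only at this
    linarith

/-- The number `α = ∑_{j ≥ 1} 2^(-2^j)`, as the supremum of its partial sums. -/
noncomputable def alpha : ℝ := ⨆ k, r k

lemma r_bdd : BddAbove (Set.range r) := ⟨r 0 + 2 / Q 1, by rintro _ ⟨k, rfl⟩; exact r_le k 0⟩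

lemma r_le_alpha (k : ℕ) : r k ≤ alpha := le_ciSup r_bdd k

lemma alpha_le (k : ℕ) : alpha ≤ r k + 2 / Q (k + 1) := ciSup_le (fun l => r_le l k)

lemma tendsto_r : Tendsto r atTop (𝓝 alpha) := tendsto_atTop_ciSup r_mono r_bdd

lemma lt_Q (k : ℕ) : k < Q k := by
  induction k with
  | zero => exact Q_pos 0
  | succ k ih =>
    have := Q_ge k
    rw [Q_succ]
    nlinarith

/-- `α` is badly approximable. -/
lemma alpha_bad (b : ℕ) (hb : 1 ≤ b) (a : ℤ) : 1 / (32 * (b : ℝ)) ≤ |(b : ℝ) * alpha - a| := by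
  have hlim : Tendsto (fun k => |(b : ℝ) * r k - a|) atTop (𝓝 |(b : ℝ) * alpha - a|) :=
    ((tendsto_r.const_mul (b : ℝ)).sub_const (a : ℝ)).abs
  apply ge_of_tendsto hlim
  filter_upwards [eventually_ge_atTop (2 * b)] with k hk
  have hbQ : 2 * b ≤ Q k := le_trans hk (lt_Q k).le
  have hbr : (1 : ℝ) ≤ b := by exact_mod_cast hb
  have hQr : (0 : ℝ) < Q k := by exact_mod_cast Q_pos k
  set D : ℤ := b * P k - a * Q k with hD
  have hDr : (b : ℝ) * r k - a = D / Q k := by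
    rw [hD]; unfold r; push_cast; field_simp
  rw [hDr, abs_div, abs_of_pos hQr]
  have hD0 : D ≠ 0 := by
    intro h0
    have hcop : IsCoprime (Q k : ℤ) (P k : ℤ) := by
      rw [Nat.isCoprime_iff_coprime]; exact (coprime_PQ k).symm
    have h3 : (Q k : ℤ) ∣ (b : ℤ) * P k := ⟨a, by rw [hD] at h0; linarith⟩
    have h4 : (Q k : ℤ) ∣ (b : ℤ) := hcop.dvd_of_dvd_mul_right h3
    have h5 : Q k ∣ b := by exact_mod_cast h4
    have := Nat.le_of_dvd (by omega) h5
    have := Q_pos k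
    omega
  by_cases h2 : 2 * |D| ≤ Q k
  · have hk := key k (b : ℤ) a D hD (by omega) hD0 (by
      rw [Nat.abs_cast]; exact_mod_cast hbQ) h2
    rw [Int.cast_natCast, Nat.abs_cast] at hk
    rw [div_le_div_iff₀ (by positivity) hQr]
    have h3 : (Q k : ℝ) ^ 3 ≤ 32 * (Q k : ℝ) ^ 2 * ((b : ℝ) * |(D : ℝ)|) := by
      have : (0 : ℝ) ≤ (40 * (Q k : ℝ) + 64) * ((b : ℝ) ^ 2 + |(D : ℝ)| ^ 2) := by positivity
      linarith
    have h4 : (Q k : ℝ) ^ 2 * (Q k : ℝ) ≤ (Q k : ℝ) ^ 2 * (32 * ((b : ℝ) * |(D : ℝ)|)) := by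
      nlinarith
    have h5 := le_of_mul_le_mul_left h4 (by positivity)
    linarith
  · push Not at h2
    have h3 : (Q k : ℝ) < 2 * |(D : ℝ)| := by exact_mod_cast h2
    have h4 : (1 : ℝ) / 2 ≤ |(D : ℝ)| / Q k := by
      rw [div_le_div_iff₀ (by norm_num) hQr]
      linarith
    have h5 : 1 / (32 * (b : ℝ)) ≤ 1 / 2 := by
      rw [div_le_div_iff₀ (by positivity) (by norm_num)]
      linarith
    linarith

lemma alpha_type : IsOfType alpha 2 := by
  refine ⟨1 / 32, by norm_num, ?_⟩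
  intro a q hq _
  have hqr : (0 : ℝ) < q := by exact_mod_cast hq
  have h := alpha_bad q hq a
  have h1 : (q : ℝ) ^ (-2 : ℝ) = 1 / (q : ℝ) ^ 2 := by
    rw [Real.rpow_neg hqr.le, one_div]
    norm_cast
  rw [h1]
  have h2 : alpha - a / q = ((q : ℝ) * alpha - a) / q := by field_simp
  rw [h2, abs_div, abs_of_pos hqr, le_div_iff₀ hqr]
  calc 1 / 32 * (1 / (q : ℝ) ^ 2) * q = 1 / (32 * (q : ℝ)) := by field_simp
    _ ≤ _ := h

lemma alpha_irrational : Irrational alpha := by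
  rintro ⟨s, hs⟩
  have h := alpha_bad s.den s.pos s.num
  have hd : (0 : ℝ) < s.den := by exact_mod_cast s.pos
  have : (s.den : ℝ) * alpha - s.num = 0 := by
    rw [← hs]
    have : (s : ℝ) = s.num / s.den := by exact_mod_cast (Rat.num_div_den s).symm
    rw [this]
    field_simp
    ring
  rw [this, abs_zero] at h
  have : (0 : ℝ) < 1 / (32 * (s.den : ℝ)) := by positivity
  linarith

/-! ### The special values of `N` -/

/-- the number of multiples of `u` used -/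
def M : ℕ → ℕ
  | 0 => 8
  | (l + 1) => 128 * M l ^ 4

/-- `u l ^ 2` is the denominator of a partial sum -/
def u (l : ℕ) : ℕ := 128 * M l ^ 3

lemma M_ge (l : ℕ) : l + 8 ≤ M l := by
  induction l with
  | zero => simp [M]
  | succ l ih =>
    simp only [M]
    have h1 : M l ≤ M l ^ 4 := Nat.le_self_pow (by norm_num) _
    nlinarith

lemma u_sq (l : ℕ) : u l ^ 2 = Q (2 * l + 4) := by
  induction l with
  | zero => norm_num [u, M, Q]
  | succ l ih =>
    have h1 : u (l + 1) = u l ^ 4 := by simp only [u, M]; ring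
    have h2 : Q (2 * (l + 1) + 4) = Q (2 * l + 4) ^ 4 := by
      have : 2 * (l + 1) + 4 = (2 * l + 4) + 1 + 1 := by ring
      rw [this, Q_succ, Q_succ]
      ring
    rw [h1, h2, ← ih]
    ring

/-- For `n = u m` with `m ≤ M l` the fractional part of `n² α` is tiny. -/
lemma x_small (l m : ℕ) (hm : m ≤ M l) :
    0 ≤ x alpha (u l * m) ∧ x alpha (u l * m) ≤ 2 * (M l : ℝ) ^ 2 / (u l : ℝ) ^ 2 := by
  refine ⟨Int.fract_nonneg _, ?_⟩
  have hM : (8 : ℝ) ≤ M l := by exact_mod_cast (by have := M_ge l; omega : 8 ≤ M l)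
  have hu : (u l : ℝ) = 128 * (M l : ℝ) ^ 3 := by simp [u]
  have hupos : (0 : ℝ) < u l := by rw [hu]; positivity
  have hQ : ((Q (2 * l + 4) : ℕ) : ℝ) = (u l : ℝ) ^ 2 := by rw [← u_sq]; push_cast; rfl
  have hQ1 : ((Q (2 * l + 4 + 1) : ℕ) : ℝ) = (u l : ℝ) ^ 4 := by
    rw [Q_succ, ← u_sq]; push_cast; ring
  set τ : ℝ := alpha - r (2 * l + 4) with hτ
  have hτ0 : 0 ≤ τ := by have := r_le_alpha (2 * l + 4); linarith
  have hτ1 : τ ≤ 2 / (u l : ℝ) ^ 4 := by
    have := alpha_le (2 * l + 4)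
    rw [hQ1] at this
    linarith
  have hmr : (m : ℝ) ≤ M l := by exact_mod_cast hm
  have hm0 : (0 : ℝ) ≤ m := by positivity
  have hval : (((u l * m : ℕ) : ℝ)) ^ 2 * alpha
      = (m : ℝ) ^ 2 * (u l : ℝ) ^ 2 * τ + ((m ^ 2 * P (2 * l + 4) : ℕ) : ℤ) := by
    have h1 : (u l : ℝ) ^ 2 * r (2 * l + 4) = P (2 * l + 4) := by
      unfold r
      rw [hQ]
      field_simp
    have h2 : alpha = r (2 * l + 4) + τ := by rw [hτ]; ring
    push_cast
    calc ((u l : ℝ) * m) ^ 2 * alpha = m ^ 2 * (u l : ℝ) ^ 2 * τ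
          + m ^ 2 * ((u l : ℝ) ^ 2 * r (2 * l + 4)) := by rw [h2]; ring
      _ = _ := by rw [h1]
  have hsmall : (m : ℝ) ^ 2 * (u l : ℝ) ^ 2 * τ ≤ 2 * (M l : ℝ) ^ 2 / (u l : ℝ) ^ 2 := by
    have h1 : (m : ℝ) ^ 2 ≤ (M l : ℝ) ^ 2 := pow_le_pow_left₀ hm0 hmr 2
    calc (m : ℝ) ^ 2 * (u l : ℝ) ^ 2 * τ
        ≤ (M l : ℝ) ^ 2 * (u l : ℝ) ^ 2 * (2 / (u l : ℝ) ^ 4) := by gcongr
      _ = 2 * (M l : ℝ) ^ 2 / (u l : ℝ) ^ 2 := by field_simp
  have hlt : (m : ℝ) ^ 2 * (u l : ℝ) ^ 2 * τ < 1 := by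
    refine lt_of_le_of_lt hsmall ?_
    rw [div_lt_one (by positivity), hu]
    have h1 : (M l : ℝ) ^ 2 ≤ ((M l : ℝ) ^ 3) ^ 2 := by
      rw [← pow_mul]
      exact pow_le_pow_right₀ (by linarith) (by norm_num)
    nlinarith [pow_pos (lt_of_lt_of_le (by norm_num : (0 : ℝ) < 8) hM) 2]
  unfold x
  rw [hval, Int.fract_add_intCast, Int.fract_eq_self.2 ⟨by positivity, hlt⟩]
  exact hsmall

/-- The bump function. -/
noncomputable def bump (K : ℕ) (y : Fin K → ℝ) : ℝ := max 0 (min 1 (2 - 64 * ‖y‖))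

lemma bump_continuous (K : ℕ) : Continuous (bump K) := by
  unfold bump
  fun_prop

lemma bump_nonneg (K : ℕ) (y : Fin K → ℝ) : 0 ≤ bump K y := le_max_left _ _

lemma bump_le_one (K : ℕ) (y : Fin K → ℝ) : bump K y ≤ 1 :=
  max_le zero_le_one (min_le_left _ _)

lemma bump_eq_zero (K : ℕ) (y : Fin K → ℝ) (h : 1 / 32 ≤ ‖y‖) : bump K y = 0 := by
  unfold bump
  apply max_eq_left
  refine le_trans (min_le_right _ _) ?_
  linarith

lemma bump_eq_one (K : ℕ) (y : Fin K → ℝ) (h : ‖y‖ ≤ 1 / 64) : bump K y = 1 := by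
  unfold bump
  rw [min_eq_left (by linarith), max_eq_right zero_le_one]

lemma bump_supp (K : ℕ) : HasCompactSupport (bump K) := by
  apply HasCompactSupport.intro (isCompact_closedBall (0 : Fin K → ℝ) (1 / 32))
  intro y hy
  apply bump_eq_zero
  rw [Metric.mem_closedBall, dist_zero_right, not_le] at hy
  exact hy.le

lemma bump_integral (K : ℕ) (hK : 3 ≤ K) : ∫ y, bump K y ≤ 1 / 4096 := by
  have h1 : ∫ y, bump K y ≤ ∫ y, (Metric.closedBall (0 : Fin K → ℝ) (1 / 32)).indicator 1 y := by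
    apply integral_mono_of_nonneg
    · exact Eventually.of_forall (bump_nonneg K)
    · apply (integrable_indicator_iff Metric.isClosed_closedBall.measurableSet).2
      have hfin : volume (Metric.closedBall (0 : Fin K → ℝ) (1 / 32)) ≠ ⊤ :=
        (isCompact_closedBall (0 : Fin K → ℝ) (1 / 32)).measure_lt_top.ne
      have hone : ‖(1 : ℝ)‖ₑ ≠ ⊤ := enorm_ne_top
      exact integrableOn_const hfin hone
    · apply Eventually.of_forall
      intro y
      by_cases hy : y ∈ Metric.closedBall (0 : Fin K → ℝ) (1 / 32)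
      · simp only [Set.indicator_of_mem hy]
        exact bump_le_one K y
      · simp only [Set.indicator_of_notMem hy]
        rw [Metric.mem_closedBall, dist_zero_right, not_le] at hy
        rw [bump_eq_zero K y hy.le]
  refine le_trans h1 ?_
  rw [integral_indicator_one Metric.isClosed_closedBall.measurableSet, Measure.real,
    Real.volume_pi_closedBall _ (by norm_num), ENNReal.toReal_ofReal (by positivity), Fintype.card_fin]
  calc ((2 : ℝ) * (1 / 32)) ^ K ≤ (2 * (1 / 32)) ^ 3 :=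
        pow_le_pow_of_le_one (by norm_num) (by norm_num) hK
    _ = 1 / 4096 := by norm_num

/-- The inner sum is nonnegative. -/
lemma inner_nonneg (K : ℕ) (N : ℕ) (n : Fin (K + 1) → ℕ) :
    0 ≤ ∑' m : Fin K → ℤ,
      bump K (fun i => (N : ℝ) * (x alpha (n i.castSucc) - x alpha (n i.succ) + m i)) :=
  tsum_nonneg (fun _ => bump_nonneg K _)

/-- The inner sum is a finite sum. -/
lemma inner_summable (K : ℕ) (N : ℕ) (hN : 1 ≤ N) (n : Fin (K + 1) → ℕ) :
    Summable (fun m : Fin K → ℤ =>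
      bump K (fun i => (N : ℝ) * (x alpha (n i.castSucc) - x alpha (n i.succ) + m i))) := by
  apply summable_of_hasFiniteSupport
  have hfin : Set.Finite (Set.pi Set.univ (fun _ : Fin K => Set.Icc (-2 : ℤ) 2)) :=
    Set.Finite.pi (fun _ => Set.finite_Icc _ _)
  apply hfin.subset
  intro m hm
  rw [Function.mem_support] at hm
  have hnorm : ‖(fun i => (N : ℝ) * (x alpha (n i.castSucc) - x alpha (n i.succ) + m i))‖ < 1 / 32 := by
    by_contra hcon
    push Not at hcon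
    exact hm (bump_eq_zero K _ hcon)
  intro i _
  have h1 := norm_le_pi_norm
    (fun i => (N : ℝ) * (x alpha (n i.castSucc) - x alpha (n i.succ) + m i)) i
  have h2 : |(N : ℝ) * (x alpha (n i.castSucc) - x alpha (n i.succ) + m i)| < 1 / 32 :=
    lt_of_le_of_lt h1 hnorm
  have hNr : (1 : ℝ) ≤ N := by exact_mod_cast hN
  rw [abs_mul, abs_of_pos (by linarith : (0 : ℝ) < N)] at h2
  have h3 : |x alpha (n i.castSucc) - x alpha (n i.succ) + m i| < 1 := by
    have h0 := abs_nonneg (x alpha (n i.castSucc) - x alpha (n i.succ) + m i)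
    nlinarith
  have a1 : 0 ≤ x alpha (n i.castSucc) := Int.fract_nonneg _
  have a2 : x alpha (n i.castSucc) < 1 := Int.fract_lt_one _
  have a3 : 0 ≤ x alpha (n i.succ) := Int.fract_nonneg _
  have a4 : x alpha (n i.succ) < 1 := Int.fract_lt_one _
  obtain ⟨h4, h5⟩ := abs_lt.1 h3
  have b1 : (-2 : ℝ) < m i := by linarith
  have b2 : (m i : ℝ) < 2 := by linarith
  have b1' : (-2 : ℤ) < m i := by exact_mod_cast b1
  have b2' : m i < 2 := by exact_mod_cast b2
  exact ⟨b1'.le, b2'.le⟩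

/-- A lower bound for the correlation sum, abstract version: if the points `x_n`, `n = u m`,
`1 ≤ m ≤ m₀`, all lie in an interval of length `≤ 1 / (64 N)`, where `N = u m₀`. -/
lemma R_lower_aux (K uu mm N : ℕ) (hu : 0 < uu) (hN : N = uu * mm) (hN1 : 1 ≤ N) (δ : ℝ)
    (hδ : (N : ℝ) * δ ≤ 1 / 64)
    (hx : ∀ m : ℕ, m ≤ mm → 0 ≤ x alpha (uu * m) ∧ x alpha (uu * m) ≤ δ) :
    (mm.descFactorial (K + 1) : ℝ) / N ≤ R alpha (bump K) N := by
  unfold R
  rw [div_eq_mul_inv, mul_comm, ← one_div]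
  apply mul_le_mul_of_nonneg_left _ (by positivity)
  let g : (Fin (K + 1) ↪ Fin mm) → (Fin (K + 1) → ℕ) :=
    fun e i => uu * ((e i : ℕ) + 1)
  have hg : Function.Injective g := by
    intro e e' h
    ext i
    have := congrFun h i
    simp only [g] at this
    have := Nat.eq_of_mul_eq_mul_left hu this
    omega
  have hsub : Finset.univ.map ⟨g, hg⟩ ⊆
      (Fintype.piFinset (fun _ : Fin (K + 1) => Finset.Icc 1 N)).filter
        (fun n => Function.Injective n) := by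
    intro n hn
    obtain ⟨e, -, rfl⟩ := Finset.mem_map.1 hn
    rw [Finset.mem_filter, Fintype.mem_piFinset]
    constructor
    · intro i
      simp only [Function.Embedding.coeFn_mk, g, Finset.mem_Icc]
      constructor
      · exact Nat.mul_pos hu (Nat.succ_pos _)
      · rw [hN]
        exact Nat.mul_le_mul_left _ (e i).2
    · intro i j hij
      simp only [Function.Embedding.coeFn_mk, g] at hij
      have := Nat.eq_of_mul_eq_mul_left hu hij
      exact e.injective (Fin.ext (by omega))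
  refine le_trans ?_ (Finset.sum_le_sum_of_subset_of_nonneg hsub
    (fun n _ _ => inner_nonneg K N n))
  rw [Finset.sum_map]
  have hcard : (mm.descFactorial (K + 1) : ℝ)
      = ∑ _e : (Fin (K + 1) ↪ Fin mm), (1 : ℝ) := by
    rw [Finset.sum_const, Finset.card_univ, Fintype.card_embedding_eq, Fintype.card_fin,
      Fintype.card_fin, nsmul_eq_mul, mul_one]
  rw [hcard]
  apply Finset.sum_le_sum
  intro e _
  have hterm := (inner_summable K N hN1 (g e)).le_tsum (0 : Fin K → ℤ)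
    (fun _ _ => bump_nonneg K _)
  refine le_trans ?_ hterm
  rw [bump_eq_one]
  rw [pi_norm_le_iff_of_nonneg (by norm_num)]
  intro i
  simp only [Pi.zero_apply, Int.cast_zero, add_zero, g]
  obtain ⟨a1, a2⟩ := hx ((e i.castSucc : ℕ) + 1) (e i.castSucc).2
  obtain ⟨a3, a4⟩ := hx ((e i.succ : ℕ) + 1) (e i.succ).2
  have hNr : (0 : ℝ) < N := by exact_mod_cast hN1
  rw [Real.norm_eq_abs, abs_mul, abs_of_pos hNr]
  have habs : |x alpha (uu * ((e i.castSucc : ℕ) + 1)) - x alpha (uu * ((e i.succ : ℕ) + 1))|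
      ≤ δ := by
    rw [abs_le]
    constructor <;> linarith
  exact le_trans (mul_le_mul_of_nonneg_left habs hNr.le) hδ

lemma R_lower (K l : ℕ) :
    ((M l).descFactorial (K + 1) : ℝ) / (128 * (M l : ℝ) ^ 4) ≤ R alpha (bump K) (M (l + 1)) := by
  have hM8 : 8 ≤ M l := by have := M_ge l; omega
  have hM : (8 : ℝ) ≤ M l := by exact_mod_cast hM8
  have hupos : 0 < u l := by unfold u; positivity
  have hN : M (l + 1) = u l * M l := by simp only [M, u]; ring
  have hNr : ((M (l + 1) : ℕ) : ℝ) = 128 * (M l : ℝ) ^ 4 := by simp [M]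
  have hN1 : 1 ≤ M (l + 1) := by have := M_ge (l + 1); omega
  have hu : (u l : ℝ) = 128 * (M l : ℝ) ^ 3 := by simp [u]
  have h := R_lower_aux K (u l) (M l) (M (l + 1)) hupos hN hN1
    (2 * (M l : ℝ) ^ 2 / (u l : ℝ) ^ 2) (by
      rw [hNr, hu]
      apply le_of_eq
      field_simp
      norm_num) (x_small l)
  rw [hNr] at h
  exact h

lemma desc_lower (K m : ℕ) (hK : 3 ≤ K) (hm : 8 * K ≤ m) :
    (1 : ℝ) / 256 ≤ (m.descFactorial (K + 1) : ℝ) / (128 * (m : ℝ) ^ 4) := by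
  have h1 : (m + 1 - (K + 1)) ^ (K + 1) ≤ m.descFactorial (K + 1) :=
    Nat.pow_sub_le_descFactorial m (K + 1)
  have h2 : m + 1 - (K + 1) = m - K := by omega
  rw [h2] at h1
  have h3 : (m - K) ^ 4 ≤ (m - K) ^ (K + 1) := Nat.pow_le_pow_right (by omega) (by omega)
  have h4 : ((m - K : ℕ) : ℝ) = (m : ℝ) - K := by
    rw [Nat.cast_sub (by omega)]
  have h5 : (((m : ℝ) - K)) ^ 4 ≤ (m.descFactorial (K + 1) : ℝ) := by
    rw [← h4]
    exact_mod_cast h3.trans h1
  have hKr : (3 : ℝ) ≤ K := by exact_mod_cast hK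
  have hmr : 8 * (K : ℝ) ≤ m := by exact_mod_cast hm
  have hm0 : (0 : ℝ) < m := by linarith
  have h6 : (7 / 8 * (m : ℝ)) ^ 4 ≤ ((m : ℝ) - K) ^ 4 :=
    pow_le_pow_left₀ (by positivity) (by linarith) 4
  rw [div_le_div_iff₀ (by norm_num) (by positivity)]
  have h7 : (0 : ℝ) < (m : ℝ) ^ 4 := by positivity
  have h8 : (7 / 8 * (m : ℝ)) ^ 4 = 2401 / 4096 * (m : ℝ) ^ 4 := by ring
  rw [h8] at h6
  linarith

lemma M_tendsto : Tendsto M atTop atTop :=
  tendsto_atTop_mono (fun l => by have := M_ge l; omega : ∀ l, l ≤ M l) tendsto_id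

lemma not_tendsto (K : ℕ) (hK : 3 ≤ K) :
    ¬ Tendsto (fun N : ℕ => R alpha (bump K) N) atTop (𝓝 (∫ y, bump K y)) := by
  intro h
  have h1 : Tendsto (fun l : ℕ => R alpha (bump K) (M (l + 1))) atTop (𝓝 (∫ y, bump K y)) :=
    h.comp (M_tendsto.comp (tendsto_add_atTop_nat 1))
  have h2 : (1 : ℝ) / 256 ≤ ∫ y, bump K y := by
    apply ge_of_tendsto h1
    filter_upwards [M_tendsto.eventually_ge_atTop (8 * K)] with l hl
    exact le_trans (desc_lower K (M l) hK hl) (R_lower K l)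
  have h3 := bump_integral K hK
  norm_num at h2 h3
  linarith

/-- **Main result.**  There is an irrational number `α` of type `2`, i.e. a badly approximable
one, for which the `k`-level correlation (`k = K + 1`) of `{n² α}`, `n ≤ N`, is not Poissonian, for
every `k ≥ 4`. -/
theorem result :
    ∃ α : ℝ, Irrational α ∧ IsOfType α 2 ∧
      ∀ K : ℕ, 3 ≤ K → ∃ f : (Fin K → ℝ) → ℝ, Continuous f ∧ HasCompactSupport f ∧
        ¬ Tendsto (fun N : ℕ => R α f N) atTop (𝓝 (∫ y, f y)) :=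
  ⟨alpha, alpha_irrational, alpha_type, fun K hK =>
    ⟨bump K, bump_continuous K, bump_supp K, not_tendsto K hK⟩⟩

end Pool.Agent.Results.MP_0a44cb_nt.SquareDenominators
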